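import Mathlib

/-!
# The inequality of Erdős and Turán for Sidon sets
-/

set_option autoImplicit false

namespace P426.TF

open Finset

/-- windows of length `u + 1`: a set `A ⊆ [0, N]` with distinct differences satisfies
`(u + 1) |A|² ≤ (N + u + 1) (|A| + u)`. -/
theorem erdos_turan (A : Finset ℕ) (N u : ℕ) (hA : ∀ a ∈ A, a ≤ N)
    (hS : ∀ a ∈ A, ∀ b ∈ A, ∀ c ∈ A, ∀ d ∈ A, a < b → c < d → b - a = d - c → a = c ∧ b = d) :
    (u + 1) * A.card ^ 2 ≤ (N + u + 1) * (A.card + u) := by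
  classical
  -- the windows
  set n : ℕ → ℕ := fun x => (A.filter (fun a => a ≤ x ∧ x < a + (u + 1))).card with hn
  set X := range (N + u + 1) with hX
  have hwin : ∀ a ∈ A, (X.filter (fun x => a ≤ x ∧ x < a + (u + 1))).card = u + 1 := by
    intro a ha
    have : X.filter (fun x => a ≤ x ∧ x < a + (u + 1)) = Ico a (a + (u + 1)) := by
      ext x
      simp only [hX, mem_filter, mem_range, mem_Ico]
      have := hA a ha
      omega
    rw [this, Nat.card_Ico]; omega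
  have h1 : ∑ x ∈ X, n x = (u + 1) * A.card := by
    have : ∀ x, n x = ∑ a ∈ A, if (a ≤ x ∧ x < a + (u + 1)) then 1 else 0 := by
      intro x; rw [hn]; simp only [card_filter]
    simp_rw [this]
    rw [sum_comm]
    have : ∀ a ∈ A, (∑ x ∈ X, if (a ≤ x ∧ x < a + (u + 1)) then 1 else 0) = u + 1 := by
      intro a ha
      rw [← card_filter]; exact hwin a ha
    rw [sum_congr rfl this, sum_const, smul_eq_mul, mul_comm]
  -- pairs
  set P := (A ×ˢ A).filter (fun p => p.1 < p.2) with hP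
  have hinter : ∀ a ∈ A, ∀ b ∈ A, a < b →
      (X.filter (fun x => (a ≤ x ∧ x < a + (u + 1)) ∧ (b ≤ x ∧ x < b + (u + 1)))).card
        = (u + 1) - (b - a) := by
    intro a ha b hb hab
    have : X.filter (fun x => (a ≤ x ∧ x < a + (u + 1)) ∧ (b ≤ x ∧ x < b + (u + 1))) =
        Ico b (a + (u + 1)) := by
      ext x
      simp only [hX, mem_filter, mem_range, mem_Ico]
      have := hA a ha
      omega
    rw [this, Nat.card_Ico]; omega
  have h2 : ∑ x ∈ X, (n x) ^ 2 = (u + 1) * A.card + 2 * ∑ p ∈ P, ((u + 1) - (p.2 - p.1)) := by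
    have e1 : ∀ x, (n x) ^ 2 = ∑ p ∈ A ×ˢ A, if ((p.1 ≤ x ∧ x < p.1 + (u + 1)) ∧
        (p.2 ≤ x ∧ x < p.2 + (u + 1))) then 1 else 0 := by
      intro x
      have : n x = ∑ a ∈ A, if (a ≤ x ∧ x < a + (u + 1)) then 1 else 0 := by
        rw [hn]; simp only [card_filter]
      rw [sq, this, sum_mul_sum, ← sum_product']
      refine sum_congr rfl fun p _ => ?_
      by_cases c1 : (p.1 ≤ x ∧ x < p.1 + (u + 1)) <;> by_cases c2 : (p.2 ≤ x ∧ x < p.2 + (u + 1)) <;>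
        simp [c1, c2]
    simp_rw [e1]
    rw [sum_comm]
    set g : ℕ × ℕ → ℕ := fun p => ∑ x ∈ X, if ((p.1 ≤ x ∧ x < p.1 + (u + 1)) ∧
        (p.2 ≤ x ∧ x < p.2 + (u + 1))) then 1 else 0 with hg
    have hsplit : ∑ p ∈ A ×ˢ A, g p = (∑ p ∈ (A ×ˢ A).filter (fun p => p.1 = p.2), g p) +
        ((∑ p ∈ P, g p) + ∑ p ∈ (A ×ˢ A).filter (fun p => p.2 < p.1), g p) := by
      rw [← sum_filter_add_sum_filter_not (A ×ˢ A) (fun p => p.1 = p.2)]
      congr 1
      rw [← sum_filter_add_sum_filter_not ((A ×ˢ A).filter (fun p => ¬ p.1 = p.2))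
        (fun p => p.1 < p.2)]
      congr 1
      · rw [filter_filter]
        refine sum_congr ?_ fun _ _ => rfl
        ext p
        simp only [hP, mem_filter, mem_product]
        constructor
        · rintro ⟨h, -, h3⟩; exact ⟨h, h3⟩
        · rintro ⟨h, h3⟩; exact ⟨h, h3.ne, h3⟩
      · rw [filter_filter]
        refine sum_congr ?_ fun _ _ => rfl
        ext p
        simp only [mem_filter, mem_product]
        constructor
        · rintro ⟨h, h3, h4⟩; exact ⟨h, by omega⟩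
        · rintro ⟨h, h3⟩; exact ⟨h, by omega, by omega⟩
    have hdiag : ∑ p ∈ (A ×ˢ A).filter (fun p => p.1 = p.2), g p = (u + 1) * A.card := by
      have : (A ×ˢ A).filter (fun p => p.1 = p.2) = A.image (fun a => (a, a)) := by
        ext ⟨a, b⟩
        simp only [mem_filter, mem_product, mem_image, Prod.mk.injEq]
        constructor
        · rintro ⟨⟨h, h'⟩, rfl⟩; exact ⟨a, h, rfl, rfl⟩
        · rintro ⟨c, hc, rfl, rfl⟩; exact ⟨⟨hc, hc⟩, rfl⟩
      rw [this, sum_image (fun x _ y _ h => (Prod.mk.inj h).1)]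
      have h3 : ∀ a ∈ A, g (a, a) = u + 1 := by
        intro a ha
        rw [hg]
        simp only [and_self]
        rw [← card_filter]; exact hwin a ha
      rw [sum_congr rfl h3, sum_const, smul_eq_mul, mul_comm]
    have hup : ∑ p ∈ P, g p = ∑ p ∈ P, ((u + 1) - (p.2 - p.1)) := by
      refine sum_congr rfl fun p hp => ?_
      rw [hP, mem_filter, mem_product] at hp
      rw [hg]
      simp only
      rw [← card_filter]
      exact hinter p.1 hp.1.1 p.2 hp.1.2 hp.2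
    have hlow : ∑ p ∈ (A ×ˢ A).filter (fun p => p.2 < p.1), g p = ∑ p ∈ P, g p := by
      refine sum_nbij' (fun p => (p.2, p.1)) (fun p => (p.2, p.1)) ?_ ?_ ?_ ?_ ?_
      · rintro ⟨a, b⟩ h
        simp only [hP, mem_filter, mem_product] at h ⊢
        exact ⟨⟨h.1.2, h.1.1⟩, h.2⟩
      · rintro ⟨a, b⟩ h
        simp only [hP, mem_filter, mem_product] at h ⊢
        exact ⟨⟨h.1.2, h.1.1⟩, h.2⟩
      · intro _ _; rfl
      · intro _ _; rfl
      · rintro ⟨a, b⟩ _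
        rw [hg]
        simp only [and_comm]
    rw [hsplit, hdiag, hlow, hup]
    ring
  have h3 : 2 * ∑ p ∈ P, ((u + 1) - (p.2 - p.1)) ≤ (u + 1) * u := by
    have hinj : Set.InjOn (fun p : ℕ × ℕ => p.2 - p.1) P := by
      rintro ⟨a, b⟩ hp ⟨c, d⟩ hq h
      simp only [hP, coe_filter, mem_product, Set.mem_ofPred_eq] at hp hq h
      obtain ⟨h5, h6⟩ := hS a hp.1.1 b hp.1.2 c hq.1.1 d hq.1.2 hp.2 hq.2 h
      rw [h5, h6]
    have e1 : ∑ p ∈ P, ((u + 1) - (p.2 - p.1)) =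
        ∑ d ∈ P.image (fun p : ℕ × ℕ => p.2 - p.1), ((u + 1) - d) := by
      rw [sum_image hinj]
    have e2 : ∑ d ∈ P.image (fun p : ℕ × ℕ => p.2 - p.1), ((u + 1) - d) ≤
        ∑ d ∈ Ico 1 (u + 2), ((u + 1) - d) := by
      rw [← sum_filter_add_sum_filter_not (P.image (fun p : ℕ × ℕ => p.2 - p.1)) (fun d => d < u + 2)]
      have z : ∑ d ∈ (P.image (fun p : ℕ × ℕ => p.2 - p.1)).filter (fun d => ¬ d < u + 2),
          ((u + 1) - d) = 0 := by
        refine sum_eq_zero fun d hd => ?_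
        rw [mem_filter] at hd
        omega
      rw [z, add_zero]
      refine sum_le_sum_of_subset fun d hd => ?_
      simp only [mem_filter, mem_image, hP, mem_product, Prod.exists, mem_Ico] at hd ⊢
      obtain ⟨⟨a, b, ⟨_, hab⟩, rfl⟩, h5⟩ := hd
      omega
    have e3 : 2 * ∑ d ∈ Ico 1 (u + 2), ((u + 1) - d) = (u + 1) * u := by
      have e4 : ∑ d ∈ Ico 1 (u + 2), ((u + 1) - d) = ∑ i ∈ range (u + 1), i := by
        refine sum_nbij' (fun d => u + 1 - d) (fun i => u + 1 - i) ?_ ?_ ?_ ?_ ?_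
        · intro d hd; simp only [mem_Ico, mem_range] at hd ⊢; omega
        · intro d hd; simp only [mem_Ico, mem_range] at hd ⊢; omega
        · intro d hd; simp only [mem_Ico] at hd ⊢; omega
        · intro d hd; simp only [mem_range] at hd ⊢; omega
        · intro d hd; rfl
      rw [e4, mul_comm, Finset.sum_range_id_mul_two]
      simp
    rw [e1]
    calc 2 * ∑ d ∈ P.image (fun p : ℕ × ℕ => p.2 - p.1), ((u + 1) - d)
        ≤ 2 * ∑ d ∈ Ico 1 (u + 2), ((u + 1) - d) := Nat.mul_le_mul_left _ e2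
      _ = _ := e3
  have h4 : (∑ x ∈ X, n x) ^ 2 ≤ X.card * ∑ x ∈ X, (n x) ^ 2 := sq_sum_le_card_mul_sum_sq
  rw [h1, h2, hX, card_range] at h4
  have h5 : ((u + 1) * A.card) ^ 2 ≤ (N + u + 1) * ((u + 1) * A.card + (u + 1) * u) :=
    h4.trans (Nat.mul_le_mul_left _ (Nat.add_le_add_left h3 _))
  have h6 : (u + 1) * ((u + 1) * A.card ^ 2) ≤ (u + 1) * ((N + u + 1) * (A.card + u)) := by
    calc (u + 1) * ((u + 1) * A.card ^ 2) = ((u + 1) * A.card) ^ 2 := by ring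
      _ ≤ _ := h5
      _ = _ := by ring
  exact Nat.le_of_mul_le_mul_left h6 (Nat.succ_pos u)

/-- a set `A ⊆ [0, k ^ 4]`, `k ≥ 1`, with distinct differences has at most `k² + k` elements -/
theorem card_le (A : Finset ℕ) (k : ℕ) (hk : 1 ≤ k) (hA : ∀ a ∈ A, a ≤ k ^ 4)
    (hS : ∀ a ∈ A, ∀ b ∈ A, ∀ c ∈ A, ∀ d ∈ A, a < b → c < d → b - a = d - c → a = c ∧ b = d) :
    A.card ≤ k ^ 2 + k := by
  have h := erdos_turan A (k ^ 4) (k ^ 3) hA hS
  by_contra hcon
  push Not at hcon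
  obtain ⟨m, hm⟩ : ∃ m, A.card = k ^ 2 + k + 1 + m := ⟨A.card - (k ^ 2 + k + 1), by omega⟩
  rw [hm] at h
  have h' : ((k : ℤ) ^ 3 + 1) * ((k : ℤ) ^ 2 + k + 1 + m) ^ 2 ≤
      ((k : ℤ) ^ 4 + k ^ 3 + 1) * ((k : ℤ) ^ 2 + k + 1 + m + k ^ 3) := by exact_mod_cast h
  have hk' : (1 : ℤ) ≤ k := by exact_mod_cast hk
  have hm' : (0 : ℤ) ≤ m := by positivity
  have key : ((k : ℤ) ^ 3 + 1) * ((k : ℤ) ^ 2 + k + 1 + m) ^ 2 -
      ((k : ℤ) ^ 4 + k ^ 3 + 1) * ((k : ℤ) ^ 2 + k + 1 + m + k ^ 3) =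
      (k : ℤ) ^ 5 + k ^ 4 + k ^ 3 + 2 * k ^ 2 + k + m * (2 * k ^ 5 + k ^ 4 + k ^ 3 + 2 * k ^ 2 + 2 * k
        + 1) + (k ^ 3 + 1) * m ^ 2 := by ring
  have hpos : 0 < (k : ℤ) ^ 5 + k ^ 4 + k ^ 3 + 2 * k ^ 2 + k +
      m * (2 * k ^ 5 + k ^ 4 + k ^ 3 + 2 * k ^ 2 + 2 * k + 1) + (k ^ 3 + 1) * m ^ 2 := by
    positivity
  linarith

end P426.TF
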