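import Pool.Agent.TH426.TC.More
import Pool.Agent.TH426.TF.Sidon

/-!
# Double exponentials `e ^ (c e ^ (r α))`
-/

set_option autoImplicit false

namespace P426.TF

open Complex P426.TC

theorem exp_rat_pow (z : ℂ) (q : ℚ) :
    Complex.exp ((q : ℂ) * z) ^ q.den = Complex.exp z ^ q.num := by
  rw [← Complex.exp_nat_mul, ← Complex.exp_int_mul]
  congr 1
  rw [← mul_assoc]
  congr 1
  have := Rat.den_mul_eq_num q
  exact_mod_cast congrArg (fun x : ℚ => (x : ℂ)) this

theorem over_exp_rat (z : ℂ) (q : ℚ) : Over (Complex.exp z) (Complex.exp ((q : ℂ) * z)) := by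
  refine IsAlgebraic.of_pow q.den_pos ?_
  rw [exp_rat_pow]
  obtain ⟨n, hn | hn⟩ := Int.eq_nat_or_neg q.num
  · rw [hn, zpow_natCast]; exact (over_self _).pow n
  · rw [hn, zpow_neg, zpow_natCast]; exact ((over_self _).pow n).inv

theorem tr_exp {α : ℂ} (hα : IsAlgebraic ℚ α) (h0 : α ≠ 0) : Transcendental ℚ (Complex.exp α) :=
  Pool.Agent.H340R2.LW.transcendental_cexp α hα h0

theorem alg_rat (q : ℚ) : IsAlgebraic ℚ (q : ℂ) := by
  simpa using isAlgebraic_algebraMap (R := ℚ) (A := ℂ) q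

/-- an algebraic multiple of a rational power of `e ^ α` is algebraic only for exponent `0` -/
theorem exp_ne {α : ℂ} (hα : IsAlgebraic ℚ α) (h0 : α ≠ 0) {c d : ℂ} (hc : IsAlgebraic ℚ c)
    (hd : IsAlgebraic ℚ d) (hc0 : c ≠ 0) {r s : ℚ}
    (h : c * Complex.exp (r * α) = d * Complex.exp (s * α)) : r = s ∧ c = d := by
  have h1 : Complex.exp (((r - s : ℚ) : ℂ) * α) = d / c := by
    have e1 : ((r - s : ℚ) : ℂ) * α = r * α - s * α := by push_cast; ring
    rw [e1, Complex.exp_sub, div_eq_div_iff (Complex.exp_ne_zero _) hc0]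
    rw [mul_comm] ; exact h
  have h2 : r = s := by
    by_contra hne
    have h3 : ((r - s : ℚ) : ℂ) * α ≠ 0 := by
      refine mul_ne_zero ?_ h0
      have : (r - s : ℚ) ≠ 0 := sub_ne_zero.2 hne
      exact_mod_cast this
    refine tr_exp ((alg_rat (r - s)).mul hα) h3 ?_
    rw [h1]
    exact hd.mul hc.inv
  refine ⟨h2, ?_⟩
  rw [h2] at h
  exact mul_right_cancel₀ (Complex.exp_ne_zero _) h

/-- quadruples of double exponentials -/
theorem quad {α : ℂ} (hα : IsAlgebraic ℚ α) (h0 : α ≠ 0) (c : Fin 4 → ℂ) (r : Fin 4 → ℚ)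
    (hc : ∀ i, IsAlgebraic ℚ (c i)) (hc0 : ∀ i, c i ≠ 0) (hcc : c 0 * c 3 = c 1 * c 2)
    (hrr : r 0 + r 3 = r 1 + r 2)
    (e0 : IsAlgebraic ℚ (Complex.exp (c 0 * Complex.exp (r 0 * α))))
    (e1 : IsAlgebraic ℚ (Complex.exp (c 1 * Complex.exp (r 1 * α))))
    (e2 : Over (Complex.exp α) (Complex.exp (c 2 * Complex.exp (r 2 * α))))
    (e3 : Over (Complex.exp α) (Complex.exp (c 3 * Complex.exp (r 3 * α)))) :
    (r 1 = r 0 ∧ ∃ q : ℚ, c 1 = q * c 0) ∨ (r 2 = r 0 ∧ ∃ q : ℚ, c 2 = q * c 0) := by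
  have ov : ∀ i, Over (Complex.exp α) (c i * Complex.exp (r i * α)) := fun i =>
    (over_of_alg _ (hc i)).mul (over_exp_rat α (r i))
  have hdet : (c 0 * Complex.exp (r 0 * α)) * (c 3 * Complex.exp (r 3 * α)) =
      (c 2 * Complex.exp (r 2 * α)) * (c 1 * Complex.exp (r 1 * α)) := by
    have h1 : (c 0 * Complex.exp (r 0 * α)) * (c 3 * Complex.exp (r 3 * α)) =
        (c 0 * c 3) * Complex.exp (((r 0 + r 3 : ℚ) : ℂ) * α) := by
      push_cast
      rw [add_mul, Complex.exp_add]; ring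
    have h2 : (c 2 * Complex.exp (r 2 * α)) * (c 1 * Complex.exp (r 1 * α)) =
        (c 1 * c 2) * Complex.exp (((r 1 + r 2 : ℚ) : ℂ) * α) := by
      push_cast
      rw [add_mul, Complex.exp_add]; ring
    rw [h1, h2, hcc, hrr]
  have hfin : ∀ i, (∃ q : ℚ, c i * Complex.exp (r i * α) = q * (c 0 * Complex.exp (r 0 * α))) →
      r i = r 0 ∧ ∃ q : ℚ, c i = q * c 0 := by
    rintro i ⟨q, hq⟩
    rw [← mul_assoc] at hq
    obtain ⟨h1, h2⟩ := exp_ne hα h0 (hc i) ((alg_rat q).mul (hc 0)) (hc0 i) hq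
    exact ⟨h1, q, h2⟩
  rcases core (tr_exp hα h0) (mul_ne_zero (hc0 0) (Complex.exp_ne_zero _)) hdet (ov 0) (ov 2) (ov 1)
    e0 e1 e2 e3 with h | h
  · exact Or.inl (hfin 1 h)
  · exact Or.inr (hfin 2 h)

/-- distinct differences in an arithmetic progression of exponents, arbitrary multiplier -/
theorem sidon_prog {α : ℂ} (hα : IsAlgebraic ℚ α) (h0 : α ≠ 0) {c : ℂ}
    (hc : Over (Complex.exp α) c) (hc0 : c ≠ 0) (r s : ℚ) (hs : s ≠ 0) {i j k l : ℕ}
    (hij : i < j) (_hkl : k < l) (hd : j - i = l - k)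
    (ei : IsAlgebraic ℚ (Complex.exp (c * Complex.exp (((r + s * i : ℚ) : ℂ) * α))))
    (ej : IsAlgebraic ℚ (Complex.exp (c * Complex.exp (((r + s * j : ℚ) : ℂ) * α))))
    (ek : Over (Complex.exp α) (Complex.exp (c * Complex.exp (((r + s * k : ℚ) : ℂ) * α))))
    (el : Over (Complex.exp α) (Complex.exp (c * Complex.exp (((r + s * l : ℚ) : ℂ) * α)))) :
    i = k ∧ j = l := by
  have ov : ∀ i : ℕ, Over (Complex.exp α) (c * Complex.exp (((r + s * i : ℚ) : ℂ) * α)) := fun i =>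
    hc.mul (over_exp_rat α _)
  have hdet : (c * Complex.exp (((r + s * i : ℚ) : ℂ) * α)) *
      (c * Complex.exp (((r + s * l : ℚ) : ℂ) * α)) =
      (c * Complex.exp (((r + s * k : ℚ) : ℂ) * α)) *
      (c * Complex.exp (((r + s * j : ℚ) : ℂ) * α)) := by
    have key : ∀ a b : ℚ, (c * Complex.exp ((a : ℂ) * α)) * (c * Complex.exp ((b : ℂ) * α)) =
        c ^ 2 * Complex.exp (((a + b : ℚ) : ℂ) * α) := by
      intro a b
      push_cast
      rw [add_mul, Complex.exp_add]; ring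
    rw [key, key]
    congr 4
    have : (j : ℚ) + k = l + i := by
      have : j + k = l + i := by omega
      exact_mod_cast this
    linear_combination (-s) * this
  have hfin : ∀ m : ℕ, (∃ q : ℚ, c * Complex.exp (((r + s * m : ℚ) : ℂ) * α) =
      q * (c * Complex.exp (((r + s * i : ℚ) : ℂ) * α))) → m = i := by
    rintro m ⟨q, hq⟩
    have h1 : (1 : ℂ) * Complex.exp (((r + s * m : ℚ) : ℂ) * α) =
        (q : ℂ) * Complex.exp (((r + s * i : ℚ) : ℂ) * α) := by
      apply mul_left_cancel₀ hc0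
      rw [one_mul, hq]; ring
    have h2 := (exp_ne hα h0 isAlgebraic_one (alg_rat q) one_ne_zero h1).1
    have h3 : s * (m : ℚ) = s * i := by linarith
    exact_mod_cast mul_left_cancel₀ hs h3
  rcases core (tr_exp hα h0) (mul_ne_zero hc0 (Complex.exp_ne_zero _)) hdet (ov i) (ov k) (ov j)
    ei ej ek el with h | h
  · have := hfin j h
    omega
  · have := hfin k h
    omega

open Classical in
/-- few algebraic values in an arithmetic progression of exponents -/
theorem count_prog {α : ℂ} (hα : IsAlgebraic ℚ α) (h0 : α ≠ 0) {c : ℂ}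
    (hc : Over (Complex.exp α) c) (hc0 : c ≠ 0) (r s : ℚ) (hs : s ≠ 0) (k : ℕ) (hk : 1 ≤ k) :
    ((Finset.range (k ^ 4 + 1)).filter (fun n : ℕ => IsAlgebraic ℚ
      (Complex.exp (c * Complex.exp (((r + s * n : ℚ) : ℂ) * α))))).card ≤ k ^ 2 + k := by
  refine card_le _ k hk ?_ ?_
  · intro a ha
    rw [Finset.mem_filter, Finset.mem_range] at ha
    omega
  · intro a ha b hb c' hc' d hd hab hcd hdiff
    rw [Finset.mem_filter] at ha hb hc' hd
    exact sidon_prog hα h0 hc hc0 r s hs hab hcd hdiff ha.2 hb.2 (over_of_alg _ hc'.2)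
      (over_of_alg _ hd.2)

open Classical in
/-- the numbers `e ^ (e ^ n)` -/
theorem count_e (k : ℕ) (hk : 1 ≤ k) :
    ((Finset.Icc 1 (k ^ 4)).filter (fun n : ℕ => IsAlgebraic ℚ (Real.exp (Real.exp n)))).card + 1
      ≤ k ^ 2 + k := by
  set B := (Finset.Icc 1 (k ^ 4)).filter
    (fun n : ℕ => IsAlgebraic ℚ (Real.exp (Real.exp n))) with hB
  have h0 : (0 : ℕ) ∉ B := by
    rw [hB, Finset.mem_filter, Finset.mem_Icc]; omega
  have hcv : ∀ n : ℕ, n ∈ B → IsAlgebraic ℚ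
      (Complex.exp (1 * Complex.exp (((0 + 1 * n : ℚ) : ℂ) * 1))) := by
    intro n hn
    rw [hB, Finset.mem_filter] at hn
    have h1 := hn.2.algebraMap (A := ℂ)
    have h2 : (algebraMap ℝ ℂ) (Real.exp (Real.exp n)) =
        Complex.exp (1 * Complex.exp (((0 + 1 * n : ℚ) : ℂ) * 1)) := by
      simp
    rwa [h2] at h1
  have hov : ∀ n : ℕ, n ∈ insert 0 B → Over (Complex.exp 1)
      (Complex.exp (1 * Complex.exp (((0 + 1 * n : ℚ) : ℂ) * 1))) := by
    intro n hn
    rcases Finset.mem_insert.1 hn with rfl | hn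
    · have : Complex.exp (1 * Complex.exp (((0 + 1 * (0 : ℕ) : ℚ) : ℂ) * 1)) = Complex.exp 1 := by
        simp
      rw [this]; exact over_self _
    · exact over_of_alg _ (hcv n hn)
  have hcard : (insert 0 B).card = B.card + 1 := Finset.card_insert_of_notMem h0
  rw [← hcard]
  have hpos : ∀ n : ℕ, n ∈ B → 0 < n := by
    intro n hn
    rw [hB, Finset.mem_filter, Finset.mem_Icc] at hn
    omega
  have o1 : Over (Complex.exp 1) (1 : ℂ) := isAlgebraic_one
  refine card_le _ k hk ?_ ?_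
  · intro a ha
    rcases Finset.mem_insert.1 ha with rfl | ha
    · exact Nat.zero_le _
    · rw [hB, Finset.mem_filter, Finset.mem_Icc] at ha
      omega
  · intro a ha b hb c hc d hd hab hcd hdiff
    -- if `a ≠ 0` then `a, b` are in `B`
    rcases Finset.mem_insert.1 ha with ha0 | ha'
    · rcases Finset.mem_insert.1 hc with hc0 | hc'
      · subst ha0; subst hc0
        exact ⟨rfl, by omega⟩
      · -- use `c < d` in `B`
        have hd' : d ∈ B := by
          rcases Finset.mem_insert.1 hd with h | h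
          · have := hpos c hc'; omega
          · exact h
        have := sidon_prog isAlgebraic_one one_ne_zero o1 one_ne_zero 0 1 one_ne_zero hcd hab
          hdiff.symm (hcv c hc') (hcv d hd') (hov a ha) (hov b hb)
        exact ⟨this.1.symm, this.2.symm⟩
    · have hb' : b ∈ B := by
        rcases Finset.mem_insert.1 hb with h | h
        · have := hpos a ha'; omega
        · exact h
      exact sidon_prog isAlgebraic_one one_ne_zero o1 one_ne_zero 0 1 one_ne_zero hab hcd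
        hdiff (hcv a ha') (hcv b hb') (hov c hc) (hov d hd)

/-- purely imaginary direction -/
theorem imag {b : ℝ} (hb : IsAlgebraic ℚ b) (hb0 : b ≠ 0) {c d : ℂ} (hc : IsAlgebraic ℚ c)
    (hd : IsAlgebraic ℚ d) (hc0 : c ≠ 0) (hd0 : d ≠ 0) (hq : ∃ q : ℚ, ‖d‖ ^ 2 = q * ‖c‖ ^ 2)
    {r s : ℚ} (er : IsAlgebraic ℚ (Complex.exp (c * Complex.exp (r * (b * I)))))
    (es : IsAlgebraic ℚ (Complex.exp (d * Complex.exp (s * (b * I))))) :
    (s = r ∧ ∃ q : ℚ, d = q * c) ∨ (s = -r ∧ ∃ q : ℚ, d = q * (starRingEnd ℂ) c) := by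
  have hα : IsAlgebraic ℚ ((b : ℂ) * I) :=
    (hb.algebraMap (A := ℂ)).mul Pool.Agent.H340R2.LW.isAlgebraic_I
  have hα0 : (b : ℂ) * I ≠ 0 := mul_ne_zero (by exact_mod_cast hb0) I_ne_zero
  set u := Complex.exp ((b : ℂ) * I) with hu
  have hutr : Transcendental ℚ u := tr_exp hα hα0
  have hun : ‖u‖ = 1 := Complex.norm_exp_ofReal_mul_I b
  have hR : IsAlgebraic ℚ ((‖u‖ ^ 2 : ℝ) : ℂ) := by
    rw [hun]; simpa using (isAlgebraic_one : IsAlgebraic ℚ (1 : ℂ))
  have ht := tr_re hR hutr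
  have ou := over_re hR
  have ov : ∀ (c : ℂ) (r : ℚ), IsAlgebraic ℚ c →
      Over (u.re : ℂ) (c * Complex.exp (r * (b * I))) := fun c r hc =>
    (over_of_alg _ hc).mul (over_over ou (over_exp_rat _ r))
  have hn : ∀ (r : ℚ), ‖Complex.exp ((r : ℂ) * (b * I))‖ = 1 := by
    intro r
    have : (r : ℂ) * ((b : ℂ) * I) = (((r : ℝ) * b : ℝ) : ℂ) * I := by push_cast; ring
    rw [this, Complex.norm_exp_ofReal_mul_I]
  obtain ⟨q, hq⟩ := hq
  have hq' : ‖d * Complex.exp (s * (b * I))‖ ^ 2 = q * ‖c * Complex.exp (r * (b * I))‖ ^ 2 := by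
    rw [norm_mul, norm_mul, hn, hn, mul_one, mul_one, hq]
  rcases pair ht (mul_ne_zero hc0 (Complex.exp_ne_zero _)) (ov c r hc) (ov d s hd) er es hq' with
    ⟨x, hx⟩ | ⟨x, hx⟩
  · left
    rw [← mul_assoc (x : ℂ)] at hx
    obtain ⟨h1, h2⟩ := exp_ne hα hα0 hd ((alg_rat x).mul hc) hd0 hx
    exact ⟨h1, x, h2⟩
  · right
    have e1 : (starRingEnd ℂ) (c * Complex.exp ((r : ℂ) * (b * I))) =
        (starRingEnd ℂ) c * Complex.exp (((-r : ℚ) : ℂ) * (b * I)) := by
      rw [map_mul, ← Complex.exp_conj]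
      congr 2
      rw [map_mul, map_mul, Complex.conj_I, Complex.conj_ofReal]
      have : (starRingEnd ℂ) (r : ℂ) = r := by
        have : ((r : ℚ) : ℂ) = (((r : ℚ) : ℝ) : ℂ) := by norm_cast
        rw [this, Complex.conj_ofReal]
      rw [this]
      push_cast
      ring
    rw [e1, ← mul_assoc (x : ℂ)] at hx
    obtain ⟨h1, h2⟩ := exp_ne hα hα0 hd ((alg_rat x).mul (alg_conj hc)) hd0 hx
    exact ⟨h1, x, h2⟩

end P426.TF
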